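import Pool.Agent.Lib.UncGS.Defs

/-!
# Star-irredundance and trees: definitions

All graphs are finite, all vertex sets are finsets.  `Small G A c` (from `GSR3`) says that the
fractional chromatic number of `G[A]` is at most `c`, `NE G U c` (from `UncGS`) that all the sets
which are exactly covered inside `U` are `c`-small.
-/

set_option autoImplicit false

namespace Pool.Agent.Lib.GSR4

open Finset Classical
open Pool.Agent.Lib.FracGS (nb wnb TAdj)
open Pool.Agent.Lib.GSR3 (Stab Small Tree)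
open Pool.Agent.Lib.UncGS (NE)

/-- No triangles. -/
def TriFree {V : Type} (G : SimpleGraph V) : Prop :=
  ∀ a b c, G.Adj a b → G.Adj b c → ¬ G.Adj a c

/-- Star-irredundance: there is no `r ∈ W` with `M` different neighbours `b i ∈ W` such that, for
every `i`, the vertices of `X` adjacent to `b i`, but not to `r` and not to the other `b l`, have
`ν`-weight at least `C0`. -/
def SI {V : Type} (G : SimpleGraph V) (W X : Finset V) (ν : V → ℝ) (M : ℕ) (C0 : ℝ) : Prop :=
  ∀ r ∈ W, ∀ b : Fin M → V, Function.Injective b → (∀ i, b i ∈ nb G W r) →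
    ∃ i, ∑ x ∈ (nb G X (b i)).filter
      (fun x => ¬ G.Adj r x ∧ ∀ l, l ≠ i → ¬ G.Adj (b l) x), ν x < C0

/-- If all the sets `A'` rich in a star-irredundant stable set `X` (everything inside `A`) are
`c`-small, then `A` is `Φ Γ c`-small. -/
def HasSI {V : Type} (G : SimpleGraph V) (U : Finset V) (M : ℕ) (C0 : ℝ) (Φ : ℝ → ℝ → ℝ) :
    Prop :=
  ∀ A, A ⊆ U → ∀ Γ c : ℝ, 0 ≤ Γ → 0 ≤ c →
    (∀ (X A' : Finset V) (ν : V → ℝ), X ⊆ A → A' ⊆ A → Disjoint A' X → Stab G X →
      (∀ v, 0 ≤ ν v) → SI G A X ν M C0 → (∀ b ∈ A', Γ ≤ wnb G X ν b) → Small G A' c) →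
    Small G A (Φ Γ c)

/-- `D(c)`: the vertices `b ∈ A` such that the common neighbours of `b` and `c` in `Y` have
weight at least `C0`. -/
noncomputable def dom {V : Type} (G : SimpleGraph V) (A Y : Finset V) (ν : V → ℝ) (C0 : ℝ)
    (c : V) : Finset V :=
  A.filter (fun b => C0 ≤ wnb G (nb G Y c) ν b)

/-- `φ 0, …, φ (m - 1)` is an induced copy in `G[W]` of the tree on `{0, …, m - 1}` in which
`par j` is the parent of `j ≥ 1`. -/
def Copy {V : Type} (G : SimpleGraph V) (W : Finset V) (par : ℕ → ℕ) (m : ℕ) (φ : ℕ → V) :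
    Prop :=
  (∀ i < m, φ i ∈ W) ∧ ∀ j < m, ∀ i < j, φ j ≠ φ i ∧ (G.Adj (φ j) (φ i) ↔ i = par j)

end Pool.Agent.Lib.GSR4
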