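import Pool.Agent.Lib.GSR4.Defs
import Pool.Agent.Lib.UncGS.Stmts

/-!
# Star-irredundance and trees: statements of the modules
-/

set_option autoImplicit false

namespace Pool.Agent.Lib.GSR4

open Finset Classical
open Pool.Agent.Lib.FracGS (nb wnb TAdj pat)
open Pool.Agent.Lib.GSR3 (Stab Small Tree LPSol)
open Pool.Agent.Lib.UncGS (NE HasLab ball)

/-- Module `Net`: a bounded cover of `T(b) = nb G Y b` by sets `T(z)`, `z ∈ Z`. -/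
def StNet : Prop :=
  ∀ M : ℕ, ∃ N : ℕ, 1 ≤ N ∧
    ∀ (V : Type) [Fintype V] (G : SimpleGraph V) (W Y A : Finset V) (ν μ : V → ℝ) (C0 : ℝ),
      0 < C0 → Y ⊆ W → A ⊆ W → Stab G Y → (∀ v, 0 ≤ ν v) → (∀ v, 0 ≤ μ v) → SI G W Y ν M C0 →
        (∀ b ∈ A, 0 < wnb G Y ν b) →
          ∃ Z B : Finset V, Z ⊆ A ∧ B ⊆ A ∧ ∑ b ∈ A, μ b ≤ 2 * ∑ b ∈ B, μ b ∧
            ∀ b ∈ B, (∃ K, K ⊆ Z ∧ K.card ≤ N ∧
              ∑ x ∈ (nb G Y b).filter (fun x => ∀ z ∈ K, ¬ G.Adj z x), ν x < C0) ∧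
              wnb G Y ν b ≤ 2 * ∑ x ∈ (nb G Y b).filter (fun x => (nb G Z x).card ≤ N), ν x

/-- Module `Label`: labels with small fibres, and kings. -/
def StLabel : Prop :=
  ∀ (M N : ℕ) (C0 : ℝ), 0 < C0 → ∃ Γ C : ℝ, 0 < Γ ∧ 1 ≤ C ∧
    ∀ (V : Type) [Fintype V] (G : SimpleGraph V) (W Y A B Z : Finset V) (ν : V → ℝ) (κ : ℝ),
      0 ≤ κ → Y ⊆ W → A ⊆ W → Z ⊆ A → B ⊆ A → (∀ v, 0 ≤ ν v) → SI G W Y ν M C0 →
        (∀ b ∈ B, Γ ≤ wnb G Y ν b) →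
        (∀ b ∈ B, (∃ K, K ⊆ Z ∧ K.card ≤ N ∧
          ∑ x ∈ (nb G Y b).filter (fun x => ∀ z ∈ K, ¬ G.Adj z x), ν x < C0) ∧
          wnb G Y ν b ≤ 2 * ∑ x ∈ (nb G Y b).filter (fun x => (nb G Z x).card ≤ N), ν x) →
        (∀ c ∈ A, Small G (dom G A Y ν C0 c) κ) → Small G B (C * κ)

/-- Module `Dom`: dominators exist. -/
def StDom : Prop :=
  ∀ (M : ℕ) (C0 : ℝ), 0 < C0 → ∃ Γ C : ℝ, 0 < Γ ∧ 1 ≤ C ∧
    ∀ (V : Type) [Fintype V] (G : SimpleGraph V) (W Y A : Finset V) (ν : V → ℝ) (κ : ℝ),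
      0 ≤ κ → Y ⊆ W → A ⊆ W → Stab G Y → (∀ v, 0 ≤ ν v) → SI G W Y ν M C0 →
        (∀ b ∈ A, Γ ≤ wnb G Y ν b) → (∀ c ∈ A, Small G (dom G A Y ν C0 c) κ) →
          Small G A (C * κ)

/-- Module `Stage`: one new cover `C` of `A`; every old cover `X t` of `W` has a part `X' t` which
still covers `A` and is anticomplete to `C`, and a part `R t` which `A` hardly sees and which
covers `C`. -/
def StStage : Prop :=
  ∀ (M k : ℕ) (C0 c1 Γ : ℝ) (Φ : ℝ → ℝ → ℝ), 0 < C0 → 0 ≤ c1 → 0 ≤ Γ →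
    (∀ a c, 0 ≤ a → 0 ≤ c → 0 ≤ Φ a c) → ∃ F : ℝ → ℝ, (∀ c, 0 ≤ c → 0 ≤ F c) ∧
    ∀ (V : Type) [Fintype V] (G : SimpleGraph V) (U W : Finset V) (X : Fin k → Finset V)
      (ν : Fin k → V → ℝ) (c : ℝ), TriFree G → NE G U c1 → HasSI G U M C0 Φ → W ⊆ U → 0 ≤ c →
        (∀ t, X t ⊆ U) → (∀ t v, 0 ≤ ν t v) → (∀ t, SI G W (X t) (ν t) M C0) →
        (∀ t, ∀ w ∈ W, Γ + 1 ≤ wnb G (X t) (ν t) w) →
        (∀ (A C : Finset V) (η : V → ℝ) (X' R : Fin k → Finset V), A ⊆ W → C ⊆ W →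
          (∀ v, 0 ≤ η v) → Disjoint A C → SI G W C η M C0 → (∀ a ∈ A, Γ ≤ wnb G C η a) →
          (∀ t, X' t ⊆ X t) → (∀ t, R t ⊆ X t) →
          (∀ t, ∀ a ∈ A, Γ ≤ wnb G (X' t) (ν t) a ∧ wnb G (R t) (ν t) a ≤ 1) →
          (∀ t, ∀ x ∈ C, (∀ z ∈ X' t, ¬ G.Adj x z) ∧ Γ + 1 ≤ wnb G (R t) (ν t) x) →
            Small G A c) →
        Small G W (F c)

/-- Module `Claim`: copies of a tree on `{0, …, m - 1}` in `W` such that, for every cover `X t`,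
the vertex `φ (p t)` sees much of the part of `X t` which the other vertices of the copy do not
see. -/
def StClaim : Prop :=
  ∀ (par : ℕ → ℕ) (m M k : ℕ) (C0 c1 : ℝ) (Φ : ℝ → ℝ → ℝ), (∀ j, 1 ≤ j → par j < j) → 1 ≤ m →
    0 < C0 → 0 ≤ c1 → (∀ a c, 0 ≤ a → 0 ≤ c → 0 ≤ Φ a c) → ∃ F : ℝ, 0 ≤ F ∧
    ∀ (V : Type) [Fintype V] (G : SimpleGraph V) (U W : Finset V) (X : Fin k → Finset V)
      (ν : Fin k → V → ℝ) (p : Fin k → ℕ), TriFree G → NE G U c1 → HasSI G U M C0 Φ → W ⊆ U →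
        (∀ t, X t ⊆ U) → (∀ t v, 0 ≤ ν t v) → (∀ t, SI G W (X t) (ν t) M C0) →
        (∀ t, ∀ w ∈ W, (m : ℝ) ≤ wnb G (X t) (ν t) w) → (∀ t, p t < m) →
        (∀ φ : ℕ → V, Copy G W par m φ →
          ∃ t, ∑ x ∈ (nb G (X t) (φ (p t))).filter
            (fun x => ∀ i < m, i ≠ p t → ¬ G.Adj (φ i) x), ν t x < 1) →
        Small G W F

/-- Module `Four`: star-irredundance of the giants of the linear program in graphs without the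
tree of depth four. -/
def StFour : Prop :=
  ∀ (M : ℕ) (κ : ℝ), 1 ≤ κ → ∃ (n0 : ℕ) (ρ0 C0 : ℝ), 1 < ρ0 ∧ 1 ≤ C0 ∧
    ∀ (V : Type) [Fintype V] (G : SimpleGraph V) (U : Finset V) (ρ : ℝ) (y ν Lam : V → ℝ)
      (lam : Finset V → ℝ), ρ0 ≤ ρ → LPSol G U ρ y ν Lam lam →
        (∀ v ∈ U, Small G (nb G U v) κ) → (∀ φ : List (Fin M) → V, ¬ Tree G 4 M φ) →
          ∀ X, X ⊆ U → Stab G X → SI G U X ν n0 C0

/-- Module `Has`: star-irredundant covers exist. -/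
def StHas : Prop :=
  ∀ (M : ℕ) (κ : ℝ), 1 ≤ κ → ∃ (n0 : ℕ) (C0 : ℝ), 0 < C0 ∧ ∀ c1 : ℝ, 0 ≤ c1 →
    ∃ Φ : ℝ → ℝ → ℝ, (∀ a c, 0 ≤ a → 0 ≤ c → 0 ≤ Φ a c) ∧
      ∀ (V : Type) [Fintype V] (G : SimpleGraph V) (U : Finset V), NE G U c1 →
        (∀ v ∈ U, Small G (nb G U v) κ) → (∀ φ : List (Fin M) → V, ¬ Tree G 4 M φ) →
          HasSI G U n0 C0 Φ

/-- Module `Final`: triangle-free graphs without a fixed tree contained in the tree of depth four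
have covers exact up to labels (in fact exact covers). -/
def StLab4 : Prop :=
  ∀ (par : ℕ → ℕ) (n M : ℕ), (∀ j, 1 ≤ j → par j < j) → ∃ f : ℝ → ℝ, (∀ c, 0 ≤ f c) ∧
    ∀ (V : Type) [Fintype V] (G : SimpleGraph V) (U : Finset V), TriFree G →
      (∀ φ : List (Fin M) → V, ¬ Tree G 4 M φ) → IsEmpty (pat par (n + 1) ↪g G) →
        HasLab G 1 U f

end Pool.Agent.Lib.GSR4
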